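import Pool.Agent.Helper20.FS.St

/-!
# Definitions
-/

open Topology Filter

namespace Pool.Agent.Helper20.FS

open Pool.Agent.Helper20.FA Pool.Agent.Helper20.FR

attribute [local instance] IsFrechet.tag IsFrechet.csm IsFrechet.lcs

/-- The topology of `A` is given by submultiplicative seminorms for which `A` is complete. -/
def StrictAlg (A : Type) [CommRing A] [Algebra ℂ A] [TopologicalSpace A] : Prop :=
  ∀ p : Seminorm ℂ A, Continuous p → ∃ r, Good r ∧ StrictSem r ∧ ∀ x, p x ≤ r x

/-- The topology of `A` is given by submultiplicative seminorms. -/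
def SubAlg (A : Type) [CommRing A] [Algebra ℂ A] [TopologicalSpace A] : Prop :=
  ∀ p : Seminorm ℂ A, Continuous p → ∃ r, Good r ∧ ∀ x, p x ≤ r x

/-- `M` is topologically isomorphic to `c0` with a diagonal action given by characters. -/
def IsDiag {A : Type} [CommRing A] [Algebra ℂ A] [TopologicalSpace A] (M : FMod A) : Prop :=
  ∃ (i : c0 ≃L[ℂ] M.X) (χ : ℕ → (A →ₐ[ℂ] ℂ)), ∀ (a : A) (z : c0) (n : ℕ),
    i.symm (M.sm a (i z)) n = χ n a * z n

end Pool.Agent.Helper20.FS
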