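import Pool.Agent.Helper20.FS.NE
import Pool.Agent.Helper20.FS.Df

/-!
# Strict inverse limits of Banach algebras
-/

open Topology Filter

namespace Pool.Agent.Helper20.FS

open Pool.Agent.Helper20.FA Pool.Agent.Helper20.FR

attribute [local instance] IsFrechet.tag IsFrechet.csm IsFrechet.lcs

variable {A : Type} [CommRing A] [Algebra ℂ A] [TopologicalSpace A] [IsFrechet A]

theorem tendsto_rep {f : ℕ → ℂ} (hf : Tendsto f atTop (𝓝 0)) (j : ℕ) :
    Tendsto (fun n : ℕ => if n.unpair.1 = j then f n.unpair.2 else 0) atTop (𝓝 0) := by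
  rw [Metric.tendsto_atTop] at hf ⊢
  intro ε hε
  obtain ⟨N, hN⟩ := hf ε hε
  refine ⟨∑ k ∈ Finset.range N, (Nat.pair j k + 1), fun n hn => ?_⟩
  by_cases h : n.unpair.1 = j
  · rw [if_pos h]
    refine hN _ ?_
    by_contra h1
    push Not at h1
    have h2 : Nat.pair j n.unpair.2 = n := by
      rw [← h]
      exact Nat.pair_unpair n
    have h3 : Nat.pair j n.unpair.2 + 1 ≤ ∑ k ∈ Finset.range N, (Nat.pair j k + 1) :=
      Finset.single_le_sum (f := fun k => Nat.pair j k + 1) (fun _ _ => Nat.zero_le _)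
        (Finset.mem_range.2 h1)
    omega
  · rw [if_neg h, dist_self]
    exact hε

theorem nec2 [ContinuousMul A] [TopologicalSpace.SeparableSpace A] (hPH : StPH) (hSA : StSA)
    (hM : ∀ (χ : ℕ → (A →ₐ[ℂ] ℂ)) (p : Seminorm ℂ A) (hpc : Continuous p)
      (hp : ∀ j a, ‖χ j a‖ ≤ p a), HasCores (chM χ p hpc hp))
    (χ : ℕ → (A →ₐ[ℂ] ℂ)) (p : Seminorm ℂ A) (hpc : Continuous p)
    (hp : ∀ j a, ‖χ j a‖ ≤ p a) :
    ∃ q : Seminorm ℂ A, Continuous q ∧ ∀ r : Seminorm ℂ A, Good r → StrictSem r →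
      (∀ x, p x ≤ r x) → ∀ j, ∃ α, χ j α = 1 ∧ ∃ C : ℝ, ∀ b, r (α * b) ≤ C * q b := by
  obtain ⟨J, hJ, e, d, he, -, -, -, s, t, hs, -, -⟩ :=
    hM (fun n => χ n.unpair.1) p hpc (fun n a => hp _ a)
  let e0 : c0 →L[ℂ] (J 0).X := e
  let s0 : (J 0).X →L[ℂ] c0 := s
  obtain ⟨q, hq, hqr⟩ := nec1 hPH (fun n => χ n.unpair.1) p hpc (fun n a => hp _ a) (hJ 0) e0
    (fun a z => (he a z).symm) s0 (fun z => hs z)
  have : Nonempty A := ⟨0⟩
  refine ⟨q, hq, fun r hr hrs hpr j => ?_⟩
  obtain ⟨F, C, hC0, hF1, hF2, hF3, hF4⟩ := hqr r hr.2 hr.1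
  obtain ⟨α, hα, hαb⟩ := hSA A r q hr.2 hrs (TopologicalSpace.denseSeq A) (fun z ε hε => by
    have h1 : IsOpen {y : A | r (z - y) < ε} := by
      refine isOpen_lt ?_ continuous_const
      exact hr.1.comp (continuous_const.sub continuous_id)
    obtain ⟨k, hk⟩ := (TopologicalSpace.denseRange_denseSeq A).exists_mem_open h1
      ⟨z, by
        show r (z - z) < ε
        rw [sub_self, map_zero]
        exact hε⟩
    exact ⟨k, hk⟩) (χ j).toLinearMap (fun a => (hp j a).trans (hpr a))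
    (fun k => F (Nat.pair j k)) C hC0 (fun k l => hF1 _ l) (fun k l hl => hF2 _ l (fun a => by
      rw [hl a, Nat.unpair_pair]
      rfl)) (fun k c l => hF3 _ c l) (fun l hl1 hl2 => by
      have h1 := hF4 (fun n => if n.unpair.1 = j then l n.unpair.2 else 0) (fun n => by
        by_cases h : n.unpair.1 = j
        · simp only [if_pos h]
          exact hl1 _
        · simp only [if_neg h]
          rw [norm_zero]
          exact zero_le_one) (fun a => by
        refine (tendsto_rep (hl2 a) j).congr fun n => ?_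
        by_cases h : n.unpair.1 = j
        · simp only [if_pos h]
        · simp only [if_neg h]
          rfl)
      have h2 : Tendsto (fun k => Nat.pair j k) atTop atTop := by
        refine StrictMono.tendsto_atTop fun a b hab => Nat.pair_lt_pair_right j hab
      refine (h1.comp h2).congr fun k => ?_
      show F (Nat.pair j k) (if (Nat.pair j k).unpair.1 = j then l (Nat.pair j k).unpair.2
        else 0) = F (Nat.pair j k) (l k)
      rw [Nat.unpair_pair, if_pos rfl])
  exact ⟨α, hα, C, hαb⟩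

theorem Bdd.mul_left {a : A} [ContinuousMul A] (h : Bdd a) (y : A) : Bdd (y * a) := by
  obtain ⟨q, hq, hb⟩ := h
  refine ⟨q, hq, fun r hr => ?_⟩
  have h1 : Continuous fun x : A => r (y * x) := hr.comp (continuous_const.mul continuous_id)
  let r' : Seminorm ℂ A := r.comp (LinearMap.mulLeft ℂ y)
  obtain ⟨C, hC⟩ := hb r' h1
  refine ⟨C, fun b => ?_⟩
  have h2 : r (y * a * b) = r' (a * b) := by
    show r (y * a * b) = r (y * (a * b))
    rw [mul_assoc]
  rw [h2]
  exact hC b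

theorem isDiag_chM (χ : ℕ → (A →ₐ[ℂ] ℂ)) (p : Seminorm ℂ A) (hpc : Continuous p)
    (hp : ∀ j a, ‖χ j a‖ ≤ p a) : IsDiag (chM χ p hpc hp) :=
  ⟨ContinuousLinearEquiv.refl ℂ c0, χ, fun _ _ _ => rfl⟩

/-- The equivalence. -/
theorem strict_tfae_of (hPH : StPH) (hSA : StSA) (hML : StML) (hEX : StEX) (hLU : StLU)
    (hUQ : StUQ) [ContinuousMul A] [TopologicalSpace.SeparableSpace A] (hA : StrictAlg A) :
    List.TFAE [∀ M : FMod A, HasCores M,
      ∀ M : FMod A, IsDiag M → HasCores M,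
      Dense {a : A | Bdd a},
      ∀ p : Seminorm ℂ A, Continuous p → ∃ a : A, Bdd a ∧ p (1 - a) = 0] := by
  have key : (∀ p : Seminorm ℂ A, Good p → ∃ a : A, Bdd a ∧ p (1 - a) < 1 / 2) →
      ∀ p : Seminorm ℂ A, Continuous p → ∃ a : A, Bdd a ∧ p (1 - a) = 0 := by
    intro h p hp
    obtain ⟨r, hr, hrs, hpr⟩ := hA p hp
    obtain ⟨a, ha, hab⟩ := h r hr
    obtain ⟨y, hy⟩ := hEX A r hr.2 hrs a hab
    exact ⟨y * a, ha.mul_left y, le_antisymm ((hpr _).trans hy.le) (apply_nonneg p _)⟩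
  tfae_have 1 → 2 := fun h M _ => h M
  tfae_have 2 → 4 := fun h => key (hML A (fun p hp => by
    obtain ⟨r, hr, -, hpr⟩ := hA p hp
    exact ⟨r, hr, hpr⟩) (hUQ A hA (fun χ p hp hχ =>
      nec2 hPH hSA (fun χ p hpc hp => h _ (isDiag_chM χ p hpc hp)) χ p hp hχ)))
  tfae_have 4 → 1 := by
    intro h M
    obtain ⟨a', ha'⟩ := hLU A h
    exact ha'.hasCores M
  tfae_have 4 → 3 := by
    intro h z
    rw [mem_closure_iff_nhds]
    intro U hU
    have h1 : {x : A | z - x * z ∈ (fun y => z - y) ⁻¹' U} ∈ 𝓝 (1 : A) := by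
      have h2 : ContinuousAt (fun x : A => z - (z - x * z)) 1 := by fun_prop
      refine h2.preimage_mem_nhds ?_
      rw [one_mul, sub_self, sub_zero]
      exact hU
    obtain ⟨p, hp, hpO⟩ := exists_seminorm (show (fun x : A => 1 - x) ⁻¹'
      {x : A | z - x * z ∈ (fun y => z - y) ⁻¹' U} ∈ 𝓝 (0 : A) by
        have h2 : ContinuousAt (fun x : A => (1 : A) - x) 0 := by fun_prop
        refine h2.preimage_mem_nhds ?_
        rw [sub_zero]
        exact h1)
    obtain ⟨a, ha, hpa⟩ := h p hp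
    have h3 := hpO (1 - a) (by rw [hpa]; exact zero_lt_one)
    have h4 : z - (z - (1 - (1 - a)) * z) ∈ U := h3
    refine ⟨z * a, ?_, ha.mul_left z⟩
    have h5 : z - (z - (1 - (1 - a)) * z) = z * a := by ring
    rw [← h5]
    exact h4
  tfae_have 3 → 4 := by
    intro h
    refine key fun p hp => ?_
    have h1 : IsOpen {y : A | p (1 - y) < 1 / 2} := by
      refine isOpen_lt ?_ continuous_const
      exact hp.1.comp (continuous_const.sub continuous_id)
    obtain ⟨a, ha1, ha2⟩ := h.exists_mem_open h1 ⟨1, by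
      show p (1 - 1) < 1 / 2
      rw [sub_self, map_zero]
      norm_num⟩
    exact ⟨a, ha1, ha2⟩
  tfae_finish

end Pool.Agent.Helper20.FS
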