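import Pool.Agent.Helper20.FS.St

/-!
# Statements of the modules of project SM (necessary condition without strictness)
-/

open Topology Filter

namespace Pool.Agent.Helper20.FS

open Pool.Agent.Helper20.FA Pool.Agent.Helper20.FR

/-- A sequence that is fast `r`-Cauchy and `q`-bounded in the limit: it represents an element `x` of
the completion `A_r` with `‖x b‖ ≤ C q b` for all `b`. -/
def QB {A : Type} [CommRing A] [Algebra ℂ A] (q r : Seminorm ℂ A) (C : ℝ) (x : ℕ → A) : Prop :=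
  (∀ k, r (x (k + 1) - x k) ≤ (1 / 2) ^ k) ∧ ∀ k b, r (x k * b) ≤ C * q b + (1 / 2) ^ k * r b

/-- SB. Variant of StAS of project R20 without completeness (models:
Pool/Agent/Helper51/R20/M_AS.lean and Pool/Agent/Helper41/R20/M_AS.lean, nearly a copy). `G` = limit
of the `F n` (StUL); StDI gives `α k` with `‖G l - l.at (α k)‖ ≤ (1/2)^(k+1) ‖l‖`, so by
Hahn-Banach `r (α (k+1) - α k) ≤ (1/2)^k`; with `l.at = χ`, `G l = 1`, `‖l‖ ≤ 1` one gets
`‖χ (α k) - 1‖ ≤ (1/2)^k`; and `l.at (α k * c) = (SA.B .. c l).at (α k)`, where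
`‖G (SA.B .. c l)‖ ≤ C q c ‖l‖`, `‖SA.B .. c l‖ ≤ r c ‖l‖`, gives the last claim. -/
def StSB : Prop := ∀ (A : Type) [CommRing A] [Algebra ℂ A] (r q : Seminorm ℂ A)
  (hm : ∀ a b, r (a * b) ≤ r a * r b) (x : ℕ → A),
  (∀ z, ∀ ε > 0, ∃ k, r (z - x k) < ε) → ∀ (χ : A →ₗ[ℂ] ℂ), (∀ a, ‖χ a‖ ≤ r a) →
  ∀ (F : ℕ → DA r →ₗ[ℂ] ℂ) (C : ℝ), 0 ≤ C → (∀ n l, ‖F n l‖ ≤ C * ‖l‖) →
  (∀ n (l : DA r), (∀ a, l.at a = χ a) → F n l = 1) →
  (∀ n c (l : DA r), ‖F n (SA.B r hm (SA.of r c) l)‖ ≤ C * q c * ‖l‖) →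
  (∀ l : ℕ → DA r, (∀ n, ‖l n‖ ≤ 1) → (∀ a, Tendsto (fun n => (l n).at a) atTop (𝓝 0)) →
    Tendsto (fun n => F n (l n)) atTop (𝓝 0)) →
  ∃ α : ℕ → A, QB q r C α ∧ ∀ k, ‖χ (α k) - 1‖ ≤ (1 / 2) ^ k

/-- UB (StGE as hypothesis). Proof: fix a good `p`. As in StUQ there is ONE continuous `q` that
serves for all good `r` above `p` and all characters `χ` bounded by `p` (otherwise choose, for a
countable family `π i` of continuous seminorms such that each continuous seminorm is at most some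
`π i`, a bad pair `(r i, χ i)` for `q = π i`, and use the hypothesis for the sequence `χ`). For a good
`r` let `r'` be good, above `r` and `p`. Let `R` be the ring (a subalgebra of `ℕ → A`) of all
`r'`-Cauchy sequences, `P α = lim p (α k)` (a submultiplicative seminorm on `R`) and `I` the ideal of
all `α` in `R` for which there is `C` with: for all `b` and `ε > 0`, `r' (α k b) ≤ C q b + ε` for all
large `k`. If `1/2 ≤ P (1 - α)` for all `α ∈ I`, StGE (for `R`, `P`, `I`) gives a character `χ'` of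
`R` bounded by `P` that vanishes on `I`; let `χ a = χ' (constant sequence a)`, bounded by `p`;
`‖χ' α - χ (α k)‖ ≤ P (α - constant (α k)) → 0` for `α ∈ R`. The `α` for `(r', χ)` is in `I`, so
`χ (α k) → χ' α = 0`, but `χ (α k) → 1`, a contradiction. So some `α ∈ I` has `P (1 - α) < 1/2`; let
`x` be a subsequence with `p (1 - x k) < 1/2` and `r' (x m - x k) ≤ (1/2)^k` for `m ≥ k`; then
`r (x k b) ≤ r' (x m b) + r (x k - x m) r b`, and `m → ∞` gives the last bound. -/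
def StUB : Prop := ∀ (A : Type) [CommRing A] [Algebra ℂ A] [TopologicalSpace A] [IsFrechet A]
  [ContinuousMul A],
  (∀ p : Seminorm ℂ A, Continuous p → ∃ r, Good r ∧ ∀ x, p x ≤ r x) →
  (∀ (χ : ℕ → (A →ₐ[ℂ] ℂ)) (p : Seminorm ℂ A), Continuous p → (∀ j a, ‖χ j a‖ ≤ p a) →
    ∃ q : Seminorm ℂ A, Continuous q ∧ ∀ r : Seminorm ℂ A, Good r → (∀ x, p x ≤ r x) →
      ∀ j, ∃ (α : ℕ → A) (C : ℝ), QB q r C α ∧ ∀ k, ‖χ j (α k) - 1‖ ≤ (1 / 2) ^ k) →
  ∀ p : Seminorm ℂ A, Good p → ∃ q : Seminorm ℂ A, Continuous q ∧ ∀ r : Seminorm ℂ A, Good r →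
    ∃ (x : ℕ → A) (C : ℝ), QB q r C x ∧ ∀ k, p (1 - x k) < 1 / 2

/-- MB (Mittag-Leffler in the completions). Write `A_r` for the completion of `A` for `r`; a sequence
with `QB q r C x` has a limit `x` in `A_r` with `‖x b‖ ≤ C q b` for `b ∈ A`, and conversely (fast
approximation). Proof as in StML with `x`, `y (k+1)`, `z k` in completions: (i) `1 - (1 - x)^n`
allows `p (1 - x) ≤ ε`. (ii) `p k`, `q k`, `R k` as in StML (good; `p (k+1)` above `p k` and `π (k+1)`,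
`R (k+1)` above `q (k+1)`, `p (k+1)`, `R k`). `z k ∈ A_{R k}` with `‖z k b‖ ≤ D k q 0 b`;
`y (k+1) ∈ A_{R (k+1)}` with `‖y (k+1) b‖ ≤ C q k b`, `p k (1 - y (k+1)) ≤ ε k`; multiplication by
`y (k+1)` extends to the completion for `q k`, so `z (k+1) = y (k+1) z k ∈ A_{R (k+1)}` is defined
(`q k ≤ R k`) and `‖z (k+1) b‖ ≤ C q k (z k b) ≤ C D k q 0 b`. (iii) `p j (z (k+1) - z k) ≤
(1/2)^(k+3)` for `j ≤ k`, so the `z k` converge to an element `a` of `A` (choose `a k ∈ A` close to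
`z k` for `R k`; `a k` is a Cauchy sequence of `A`), and `p j (a b) ≤ (D j + 1) q 0 b`.
Without completions: represent `z k` by sequences `z k l` with `QB (q 0) (R k) (D k) (z k)` and put
`z (k+1) l = y (m l) * z k (n l)` with `n l` large, and then `m l` large depending on `z k (n i)`,
`i ≤ l + 1` and `R (k+1)`. Or use the `A`-linear maps `T k : b ↦ z k b` from `SA (q 0)` to the
completion of `SA (R k)`. -/
def StMB : Prop := ∀ (A : Type) [CommRing A] [Algebra ℂ A] [TopologicalSpace A] [IsFrechet A]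
  [ContinuousMul A],
  (∀ p : Seminorm ℂ A, Continuous p → ∃ r, Good r ∧ ∀ x, p x ≤ r x) →
  (∀ p : Seminorm ℂ A, Good p → ∃ q : Seminorm ℂ A, Continuous q ∧ ∀ r : Seminorm ℂ A, Good r →
    ∃ (x : ℕ → A) (C : ℝ), QB q r C x ∧ ∀ k, p (1 - x k) < 1 / 2) →
  ∀ p : Seminorm ℂ A, Good p → ∃ a : A, Bdd a ∧ p (1 - a) < 1 / 2

end Pool.Agent.Helper20.FS
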