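import Pool.Agent.Helper20.FS.C2
import Pool.Agent.Helper20.FS.St3

/-!
# The necessary condition without strictness
-/

open Topology Filter

namespace Pool.Agent.Helper20.FS

open Pool.Agent.Helper20.FA Pool.Agent.Helper20.FR

attribute [local instance] IsFrechet.tag IsFrechet.csm IsFrechet.lcs

variable {A : Type} [CommRing A] [Algebra ℂ A] [TopologicalSpace A] [IsFrechet A]

theorem nec3 [ContinuousMul A] [TopologicalSpace.SeparableSpace A] (hPH : StPH) (hSB : StSB)
    (hM : ∀ (χ : ℕ → (A →ₐ[ℂ] ℂ)) (p : Seminorm ℂ A) (hpc : Continuous p)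
      (hp : ∀ j a, ‖χ j a‖ ≤ p a), HasCores (chM χ p hpc hp))
    (χ : ℕ → (A →ₐ[ℂ] ℂ)) (p : Seminorm ℂ A) (hpc : Continuous p)
    (hp : ∀ j a, ‖χ j a‖ ≤ p a) :
    ∃ q : Seminorm ℂ A, Continuous q ∧ ∀ r : Seminorm ℂ A, Good r →
      (∀ x, p x ≤ r x) → ∀ j, ∃ (α : ℕ → A) (C : ℝ), QB q r C α ∧
        ∀ k, ‖χ j (α k) - 1‖ ≤ (1 / 2) ^ k := by
  obtain ⟨J, hJ, e, d, he, -, -, -, s, t, hs, -, -⟩ :=
    hM (fun n => χ n.unpair.1) p hpc (fun n a => hp _ a)
  let e0 : c0 →L[ℂ] (J 0).X := e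
  let s0 : (J 0).X →L[ℂ] c0 := s
  obtain ⟨q, hq, hqr⟩ := nec1 hPH (fun n => χ n.unpair.1) p hpc (fun n a => hp _ a) (hJ 0) e0
    (fun a z => (he a z).symm) s0 (fun z => hs z)
  have : Nonempty A := ⟨0⟩
  refine ⟨q, hq, fun r hr hpr j => ?_⟩
  obtain ⟨F, C, hC0, hF1, hF2, hF3, hF4⟩ := hqr r hr.2 hr.1
  obtain ⟨α, hα, hαb⟩ := hSB A r q hr.2 (TopologicalSpace.denseSeq A) (fun z ε hε => by
    have h1 : IsOpen {y : A | r (z - y) < ε} := by
      refine isOpen_lt ?_ continuous_const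
      exact hr.1.comp (continuous_const.sub continuous_id)
    obtain ⟨k, hk⟩ := (TopologicalSpace.denseRange_denseSeq A).exists_mem_open h1
      ⟨z, by
        show r (z - z) < ε
        rw [sub_self, map_zero]
        exact hε⟩
    exact ⟨k, hk⟩) (χ j).toLinearMap (fun a => (hp j a).trans (hpr a))
    (fun k => F (Nat.pair j k)) C hC0 (fun k l => hF1 _ l) (fun k l hl => hF2 _ l (fun a => by
      rw [hl a, Nat.unpair_pair]
      rfl)) (fun k c l => hF3 _ c l) (fun l hl1 hl2 => by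
      have h1 := hF4 (fun n => if n.unpair.1 = j then l n.unpair.2 else 0) (fun n => by
        by_cases h : n.unpair.1 = j
        · simp only [if_pos h]
          exact hl1 _
        · simp only [if_neg h]
          rw [norm_zero]
          exact zero_le_one) (fun a => by
        refine (tendsto_rep (hl2 a) j).congr fun n => ?_
        by_cases h : n.unpair.1 = j
        · simp only [if_pos h]
        · simp only [if_neg h]
          rfl)
      have h2 : Tendsto (fun k => Nat.pair j k) atTop atTop := by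
        refine StrictMono.tendsto_atTop fun a b hab => Nat.pair_lt_pair_right j hab
      refine (h1.comp h2).congr fun k => ?_
      show F (Nat.pair j k) (if (Nat.pair j k).unpair.1 = j then l (Nat.pair j k).unpair.2
        else 0) = F (Nat.pair j k) (l k)
      rw [Nat.unpair_pair, if_pos rfl])
  exact ⟨α, C, hα, hαb⟩

theorem pow_bound {p : Seminorm ℂ A} (hp : ∀ a b, p (a * b) ≤ p a * p b) (x z : A) (n : ℕ) :
    p (x ^ n * z) ≤ p x ^ n * p z := by
  induction n with
  | zero => simp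
  | succ n ih =>
    have h1 : x ^ (n + 1) * z = x * (x ^ n * z) := by ring
    rw [h1]
    refine (hp _ _).trans ?_
    calc p x * p (x ^ n * z) ≤ p x * (p x ^ n * p z) :=
          mul_le_mul_of_nonneg_left ih (apply_nonneg p x)
      _ = p x ^ (n + 1) * p z := by ring

theorem Bdd.one_sub_pow [ContinuousMul A] {a : A} (h : Bdd a) (n : ℕ) :
    Bdd (1 - (1 - a) ^ n) := by
  have h1 : ∃ y : A, 1 - (1 - a) ^ n = y * a := by
    refine ⟨∑ i ∈ Finset.range n, (1 - a) ^ i, ?_⟩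
    have h2 := geom_sum_mul_neg (1 - a) n
    rw [sub_sub_cancel] at h2
    exact h2.symm
  obtain ⟨y, hy⟩ := h1
  rw [hy]
  exact h.mul_left y

theorem dense_bdd [ContinuousMul A] (hA : SubAlg A)
    (h : ∀ p : Seminorm ℂ A, Good p → ∃ a : A, Bdd a ∧ p (1 - a) < 1 / 2) :
    Dense {a : A | Bdd a} := by
  intro z
  rw [mem_closure_iff_nhds]
  intro U hU
  have h1 : {x : A | z - x ∈ U} ∈ 𝓝 (0 : A) := by
    have h2 : ContinuousAt (fun x : A => z - x) 0 := by fun_prop
    refine h2.preimage_mem_nhds ?_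
    rw [sub_zero]
    exact hU
  obtain ⟨p, hp, hpO⟩ := exists_seminorm h1
  obtain ⟨r, hr, hpr⟩ := hA p hp
  obtain ⟨a, ha, hab⟩ := h r hr
  have h3 : Tendsto (fun n : ℕ => r (1 - a) ^ n * r z) atTop (𝓝 (0 * r z)) :=
    (tendsto_pow_atTop_nhds_zero_of_lt_one (apply_nonneg r _) (by linarith)).mul_const _
  rw [zero_mul] at h3
  obtain ⟨n, hn⟩ := (h3.eventually_lt_const one_pos).exists
  have h4 : z - (1 - a) ^ n * z ∈ U := hpO _ (lt_of_le_of_lt (hpr _)
    (lt_of_le_of_lt (pow_bound hr.2 _ _ _) hn))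
  refine ⟨z - (1 - a) ^ n * z, h4, ?_⟩
  have h5 : z - (1 - a) ^ n * z = z * (1 - (1 - a) ^ n) := by ring
  show Bdd (z - (1 - a) ^ n * z)
  rw [h5]
  exact (ha.one_sub_pow n).mul_left z

/-- The necessary condition. -/
theorem dense_of_cores (hPH : StPH) (hSB : StSB) (hUB : StUB) (hMB : StMB) [ContinuousMul A]
    [TopologicalSpace.SeparableSpace A] (hA : SubAlg A)
    (hM : ∀ M : FMod A, IsDiag M → HasCores M) :
    Dense {a : A | Bdd a} :=
  dense_bdd hA (hMB A hA (hUB A hA (fun χ p hp hχ =>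
    nec3 hPH hSB (fun χ p hpc hp => hM _ (isDiag_chM χ p hpc hp)) χ p hp hχ)))

end Pool.Agent.Helper20.FS
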