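import Pool.Agent.Helper20.FS.C2
import Pool.Agent.Helper24.R20.M_UL
import Pool.Agent.Helper31.R20.M_PH
import Pool.Agent.Helper45.R20.M_DI
import Pool.Agent.Helper73.R20.M_HB
import Pool.Agent.Helper45.SL.M_SA
import Pool.Agent.Helper7.SL.M_EX
import Pool.Agent.Helper11.SL.M_UQ
import Pool.Agent.Helper58.SL.M_LU
import Pool.Agent.Helper67.SL.M_ML
import Pool.Agent.Helper3.SL.M_GE

/-!
# Strict inverse limits of Banach algebras: the equivalence
-/

open Topology Filter

namespace Pool.Agent.Helper20.FS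

open Pool.Agent.Helper20.FA Pool.Agent.Helper20.FR

/-- The equivalence. -/
theorem strict_tfae {A : Type} [CommRing A] [Algebra ℂ A] [TopologicalSpace A] [IsFrechet A]
    [ContinuousMul A] [TopologicalSpace.SeparableSpace A] (hA : StrictAlg A) :
    List.TFAE [∀ M : FMod A, HasCores M,
      ∀ M : FMod A, IsDiag M → HasCores M,
      Dense {a : A | Bdd a},
      ∀ p : Seminorm ℂ A, Continuous p → ∃ a : A, Bdd a ∧ p (1 - a) = 0] :=
  strict_tfae_of Pool.Agent.Helper31.R20.hPH
    (Pool.Agent.Helper45.SL.hSA Pool.Agent.Helper24.R20.hUL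
      (Pool.Agent.Helper45.R20.hDI Pool.Agent.Helper73.R20.hHB))
    Pool.Agent.Helper67.SL.hML Pool.Agent.Helper7.SL.hEX Pool.Agent.Helper58.SL.hLU
    (Pool.Agent.Helper11.SL.hUQ Pool.Agent.Helper3.SL.hGE) hA

end Pool.Agent.Helper20.FS
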