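import Pool.Agent.Helper20.FS.C3
import Pool.Agent.Helper20.FS.C4
import Pool.Agent.Helper62.SL.M_SB
import Pool.Agent.Helper36.SL.M_UB
import Pool.Agent.Helper45.SL.M_MB

/-!
# Bounded elements: the final theorem
-/

open Topology Filter

namespace Pool.Agent.Helper20.FS

open Pool.Agent.Helper20.FA Pool.Agent.Helper20.FR

theorem dense_final {A : Type} [CommRing A] [Algebra ℂ A] [TopologicalSpace A] [IsFrechet A]
    [ContinuousMul A] [TopologicalSpace.SeparableSpace A] (hA : SubAlg A)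
    (hM : ∀ M : FMod A, IsDiag M → HasCores M) : Dense {a : A | Bdd a} :=
  dense_of_cores Pool.Agent.Helper31.R20.hPH
    (Pool.Agent.Helper62.SL.hSB Pool.Agent.Helper24.R20.hUL
      (Pool.Agent.Helper45.R20.hDI Pool.Agent.Helper73.R20.hHB))
    (Pool.Agent.Helper36.SL.hUB Pool.Agent.Helper3.SL.hGE) Pool.Agent.Helper45.SL.hMB hA hM

theorem cores_of_units {A : Type} [CommRing A] [Algebra ℂ A] [TopologicalSpace A] [IsFrechet A]
    [ContinuousMul A] (h : ∀ p : Seminorm ℂ A, Continuous p → ∃ a : A, Bdd a ∧ p (1 - a) = 0)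
    (M : FMod A) : HasCores M := by
  obtain ⟨a', ha'⟩ := Pool.Agent.Helper58.SL.hLU A h
  exact ha'.hasCores M

end Pool.Agent.Helper20.FS
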