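import Pool.Agent.Helper20.FS.St

/-!
# The module of sequences tending to zero given by a sequence of characters
-/

open Topology Filter

namespace Pool.Agent.Helper20.FS

open Pool.Agent.Helper20.FA Pool.Agent.Helper20.FR

attribute [local instance] IsFrechet.tag IsFrechet.csm IsFrechet.lcs

variable {A : Type} [CommRing A] [Algebra ℂ A]

/-- The action given by characters. -/
noncomputable def dg (χ : ℕ → (A →ₐ[ℂ] ℂ)) (p : Seminorm ℂ A) (hp : ∀ j a, ‖χ j a‖ ≤ p a) :
    SA p →L[ℂ] c0 →L[ℂ] c0 :=
  LinearMap.mkContinuous₂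
    (LinearMap.mk₂ ℂ (fun (a : SA p) (z : c0) => mkC (fun n => χ n (show A from a) * z n) (by
        refine squeeze_zero_norm (a := fun n => p (show A from a) * ‖z n‖) (fun n => ?_) ?_
        · rw [norm_mul]
          exact mul_le_mul_of_nonneg_right (hp n _) (norm_nonneg _)
        · have h3 := (c0_tendsto z).norm
          rw [norm_zero] at h3
          have h4 := h3.const_mul (p (show A from a))
          rw [mul_zero] at h4
          exact h4))
      (fun a b z => c0_ext fun n => by
        show χ n ((show A from a) + (show A from b)) * z n =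
          χ n (show A from a) * z n + χ n (show A from b) * z n
        rw [map_add, add_mul])
      (fun s a z => c0_ext fun n => by
        show χ n (s • (show A from a)) * z n = s * (χ n (show A from a) * z n)
        rw [map_smul, smul_eq_mul]
        ring)
      (fun a z w => c0_ext fun n => by
        show χ n (show A from a) * (z n + w n) =
          χ n (show A from a) * z n + χ n (show A from a) * w n
        rw [mul_add])
      (fun s a z => c0_ext fun n => by
        show χ n (show A from a) * (s * z n) = s * (χ n (show A from a) * z n)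
        ring)) 1 (by
      intro a z
      refine c0_norm_le (by positivity) fun n => ?_
      show ‖χ n (show A from a) * z n‖ ≤ 1 * ‖a‖ * ‖z‖
      rw [norm_mul, one_mul]
      exact mul_le_mul (hp n _) (c0_le_norm z n) (norm_nonneg _) (norm_nonneg a))

theorem dg_apply (χ : ℕ → (A →ₐ[ℂ] ℂ)) (p : Seminorm ℂ A) (hp : ∀ j a, ‖χ j a‖ ≤ p a)
    (a : A) (z : c0) (n : ℕ) : dg χ p hp (SA.of p a) z n = χ n a * z n := rfl

variable [TopologicalSpace A] [IsFrechet A]

/-- The module `c0` with the action given by characters. -/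
noncomputable def chM (χ : ℕ → (A →ₐ[ℂ] ℂ)) (p : Seminorm ℂ A) (hpc : Continuous p)
    (hp : ∀ j a, ‖χ j a‖ ≤ p a) : FMod A where
  X := c0
  fre := IsFrechet.of_normed
  act := LinearMap.mk₂ ℂ (fun (a : A) (z : c0) => dg χ p hp (SA.of p a) z)
    (fun a b z => c0_ext fun n => by
      show χ n (a + b) * z n = χ n a * z n + χ n b * z n
      rw [map_add, add_mul])
    (fun s a z => c0_ext fun n => by
      show χ n (s • a) * z n = s * (χ n a * z n)
      rw [map_smul, smul_eq_mul]
      ring)
    (fun a z w => map_add _ _ _)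
    (fun s a z => map_smul _ _ _)
  act_mul := by
    intro a b z
    refine c0_ext fun n => ?_
    show χ n (a * b) * z n = χ n a * (χ n b * z n)
    rw [map_mul, mul_assoc]
  act_cont := by
    have h1 : Continuous fun w : A × c0 => (SA.j p hpc w.1, w.2) := by fun_prop
    have h2 : Continuous fun w : SA p × c0 => dg χ p hp w.1 w.2 :=
      ((dg χ p hp).continuous.comp continuous_fst).clm_apply continuous_snd
    exact h2.comp h1

/-- The module `L(A_r, c0)`. -/
noncomputable def dualL (r : Seminorm ℂ A) (hm : ∀ a b, r (a * b) ≤ r a * r b)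
    (hr : Continuous r) : FMod A where
  X := LA r
  fre := IsFrechet.of_normed
  act := LinearMap.mk₂ ℂ (fun (a : A) (z : LA r) => BL r hm (SA.of r a) z)
    (fun a b z => LA.ext' fun c => by
      show z.at (c * (a + b)) = z.at (c * a) + z.at (c * b)
      rw [mul_add]
      exact map_add z _ _)
    (fun s a z => LA.ext' fun c => by
      show z.at (c * (s • a)) = s • z.at (c * a)
      rw [mul_smul_comm]
      exact map_smul z s _)
    (fun a z w => LA.ext' fun c => rfl)
    (fun s a z => LA.ext' fun c => rfl)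
  act_mul := by
    intro a b z
    refine LA.ext' fun c => ?_
    show z.at (c * (a * b)) = z.at ((c * a) * b)
    rw [mul_assoc]
  act_cont := by
    have h1 : Continuous fun w : A × LA r => (SA.j r hr w.1, w.2) := by fun_prop
    have h3 : Continuous fun w : SA r × LA r => BL r hm w.1 w.2 :=
      ((BL r hm).continuous.comp continuous_fst).clm_apply continuous_snd
    exact h3.comp h1

/-- The necessary condition. -/
theorem nec1 [ContinuousMul A] (hPH : StPH) (χ : ℕ → (A →ₐ[ℂ] ℂ)) (p : Seminorm ℂ A)
    (hpc : Continuous p) (hp : ∀ j a, ‖χ j a‖ ≤ p a) {J : FMod A} (hJ : Injective J)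
    (e : c0 →L[ℂ] J.X) (he : ∀ (a : A) (z : c0), J.act a (e z) = e ((chM χ p hpc hp).act a z))
    (s : J.X →L[ℂ] c0) (hs : ∀ z, s (e z) = z) :
    ∃ q : Seminorm ℂ A, Continuous q ∧ ∀ (r : Seminorm ℂ A)
      (hm : ∀ a b, r (a * b) ≤ r a * r b), Continuous r →
      ∃ (F : ℕ → DA r →ₗ[ℂ] ℂ) (C : ℝ), 0 ≤ C ∧ (∀ n l, ‖F n l‖ ≤ C * ‖l‖) ∧
        (∀ n (l : DA r), (∀ a, l.at a = χ n a) → F n l = 1) ∧
        (∀ n c (l : DA r), ‖F n (SA.B r hm (SA.of r c) l)‖ ≤ C * q c * ‖l‖) ∧
        (∀ l : ℕ → DA r, (∀ n, ‖l n‖ ≤ 1) →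
          (∀ a, Tendsto (fun n => (l n).at a) atTop (𝓝 0)) →
          Tendsto (fun n => F n (l n)) atTop (𝓝 0)) := by
  have hJmet := J.fre.metr
  obtain ⟨q, ρ, hq, hρ, hqρ⟩ := bil_bound (K := c0)
    ((LinearMap.llcomp ℂ J.X J.X c0 s.toLinearMap).comp J.act) (normSeminorm ℂ c0)
    ((s.continuous.comp J.act_cont).norm)
  have hqρ' : ∀ (a : A) (y : J.X), ‖s (J.act a y)‖ ≤ q a * ρ y := fun a y => hqρ a y
  refine ⟨q, hq, fun r hm hr => ?_⟩
  let V : FMod A := dualL r hm hr
  have hact : ∀ (a : A) (z : V.X), V.act a z = BL r hm (SA.of r a) z := fun a z => rfl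
  let ev : A → LA r →L[ℂ] c0 := fun a => ContinuousLinearMap.apply ℂ c0 (SA.of r a)
  have hev : ∀ a (T : LA r), ev a T = T.at a := fun a T => rfl
  let L : Submodule ℂ V.X :=
    { carrier := {T : LA r | ∀ b n, T.at b n = χ n b * T.at 1 n}
      add_mem' := by
        intro T T' h h' b n
        show T.at b n + T'.at b n = χ n b * (T.at 1 n + T'.at 1 n)
        rw [h b n, h' b n]
        ring
      zero_mem' := by
        intro b n
        show (0 : ℂ) = χ n b * 0
        rw [mul_zero]
      smul_mem' := by
        intro t T h b n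
        show t * T.at b n = χ n b * (t * T.at 1 n)
        rw [h b n]
        ring }
  have hL : ∀ T : LA r, (show V.X from T) ∈ L ↔ ∀ b n, T.at b n = χ n b * T.at 1 n :=
    fun T => Iff.rfl
  have hLc : IsClosed (L : Set V.X) := by
    have h1 : (L : Set V.X) = ⋂ b : A, ⋂ n : ℕ, {T : LA r | T.at b n = χ n b * T.at 1 n} := by
      ext T
      constructor
      · intro h
        exact Set.mem_iInter.2 fun b => Set.mem_iInter.2 fun n => h b n
      · intro h b n
        exact Set.mem_iInter.1 (Set.mem_iInter.1 h b) n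
    rw [h1]
    refine isClosed_iInter fun b => isClosed_iInter fun n => isClosed_eq ?_ ?_
    · exact ((cdn n).comp (ev b)).continuous
    · exact continuous_const.mul ((cdn n).comp (ev 1)).continuous
  let τ : V.X →L[ℂ] J.X := e.comp (ev 1)
  have hτ : ∀ T : LA r, τ T = e (T.at 1) := fun z => rfl
  obtain ⟨Φ, hΦ, hΦL⟩ := exists_hom hJ L hLc (by
    intro a T hT b n
    have hT' : ∀ b n, LA.at (show LA r from T) b n = χ n b * LA.at (show LA r from T) 1 n := hT
    show LA.at (show LA r from T) (b * a) n = χ n b * LA.at (show LA r from T) (1 * a) n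
    rw [one_mul, hT' (b * a) n, hT' a n, map_mul, mul_assoc]) τ (by
    intro a T hT
    have hT' : ∀ b n, LA.at (show LA r from T) b n = χ n b * LA.at (show LA r from T) 1 n := hT
    rw [hact]
    show e (LA.at (show LA r from T) (1 * a)) = J.act a (e (LA.at (show LA r from T) 1))
    rw [he, one_mul]
    congr 1
    refine c0_ext fun n => ?_
    exact hT' a n)
  let G0 : LA r →L[ℂ] J.X := Φ
  let G : LA r →L[ℂ] c0 := s.comp G0
  have hG : ∀ T : LA r, G T = s (Φ T) := fun T => rfl
  let w : Seminorm ℂ (LA r) := ρ.comp G0.toLinearMap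
  have hw : Continuous w := hρ.comp G0.continuous
  obtain ⟨C1, hC1, hC1b⟩ := LA.bound_of_cont r w hw
  have key : ∀ (a : A) (T : LA r), ‖G (BL r hm (SA.of r a) T)‖ ≤ C1 * q a * ‖T‖ := by
    intro a T
    have h1 : s (J.act a (Φ T)) = G (BL r hm (SA.of r a) T) := by
      have h2 : Φ (V.act a T) = J.act a (Φ T) := hΦ a T
      rw [← h2, hG]
      rfl
    rw [← h1]
    have h2 : ρ (Φ T) ≤ C1 * ‖T‖ := hC1b T
    calc ‖s (J.act a (Φ T))‖ ≤ q a * ρ (Φ T) := hqρ' a _
      _ ≤ q a * (C1 * ‖T‖) := mul_le_mul_of_nonneg_left h2 (apply_nonneg q a)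
      _ = C1 * q a * ‖T‖ := by ring
  let F : ℕ → DA r →ₗ[ℂ] ℂ := fun n =>
    { toFun := fun l => G (sing n l) n
      map_add' := fun l l' => by
        have h1 : sing n (l + l') = sing n l + sing n l' := by
          refine LA.ext' fun a => c0_ext fun m => ?_
          show (l.at a + l'.at a) * unC n m = l.at a * unC n m + l'.at a * unC n m
          ring
        rw [h1, map_add]
        rfl
      map_smul' := fun t l => by
        have h1 : sing n (t • l) = t • sing n l := by
          refine LA.ext' fun a => c0_ext fun m => ?_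
          show (t * l.at a) * unC n m = t * (l.at a * unC n m)
          ring
        rw [h1, map_smul]
        rfl }
  have hF : ∀ n l, F n l = G (sing n l) n := fun n l => rfl
  have hwG : Continuous ((normSeminorm ℂ c0).comp G.toLinearMap) := G.continuous.norm
  obtain ⟨CG, hCG, hCGb⟩ := LA.bound_of_cont r _ hwG
  have hGb : ∀ T : LA r, ‖G T‖ ≤ CG * ‖T‖ := fun T => hCGb T
  refine ⟨F, CG + C1, by linarith, fun n l => ?_, fun n l hl => ?_, fun n c l => ?_,
    fun l hl1 hl2 => ?_⟩
  · rw [hF]
    have h1 := c0_le_norm (G (sing n l)) n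
    have h2 := hGb (sing n l)
    have h3 := norm_sing_le n l
    have h4 := norm_nonneg l
    have h5 : CG * ‖sing n l‖ ≤ CG * ‖l‖ := mul_le_mul_of_nonneg_left h3 hCG.le
    nlinarith
  · have hmem : (show V.X from sing n l) ∈ L := by
      intro b m
      show l.at b * (if m = n then 1 else 0) = χ m b * (l.at 1 * (if m = n then 1 else 0))
      by_cases h : m = n
      · rw [if_pos h, h, hl, hl, map_one]
        ring
      · rw [if_neg h]
        ring
    have h1 : Φ (sing n l) = e ((sing n l).at 1) := hΦL _ hmem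
    rw [hF, hG, h1, hs, sing_at]
    show l.at 1 * (if n = n then 1 else 0) = 1
    rw [if_pos rfl, hl, map_one, mul_one]
  · rw [hF, ← BL_sing]
    refine (c0_le_norm _ n).trans ((key c (sing n l)).trans ?_)
    have h3 := norm_sing_le n l
    have h5 := apply_nonneg q c
    have h6 : C1 * q c * ‖sing n l‖ ≤ C1 * q c * ‖l‖ :=
      mul_le_mul_of_nonneg_left h3 (mul_nonneg hC1.le h5)
    have h7 : 0 ≤ CG * q c * ‖l‖ := mul_nonneg (mul_nonneg hCG.le h5) (norm_nonneg l)
    linarith
  · let T : Bd →ₗ[ℂ] (ℕ → ℂ) :=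
      { toFun := fun b n => G (seqT l hl1 hl2 b) n
        map_add' := fun b b' => by
          have h1 : seqT l hl1 hl2 (b + b') = seqT l hl1 hl2 b + seqT l hl1 hl2 b' := by
            refine LA.ext' fun a => c0_ext fun n => ?_
            show (b n + b' n) * (l n).at a = b n * (l n).at a + b' n * (l n).at a
            ring
          funext n
          rw [h1, map_add]
          rfl
        map_smul' := fun t b => by
          have h1 : seqT l hl1 hl2 (t • b) = t • seqT l hl1 hl2 b := by
            refine LA.ext' fun a => c0_ext fun n => ?_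
            show (t * b n) * (l n).at a = t * (b n * (l n).at a)
            ring
          funext n
          rw [h1, map_smul]
          rfl }
    have hT : ∀ b n, T b n = G (seqT l hl1 hl2 b) n := fun b n => rfl
    have h1 := hPH T CG hCG.le (fun b n => by
      rw [hT]
      have h2 := c0_le_norm (G (seqT l hl1 hl2 b)) n
      have h3 := hGb (seqT l hl1 hl2 b)
      have h4 := norm_seqT_le l hl1 hl2 b
      have h5 : CG * ‖seqT l hl1 hl2 b‖ ≤ CG * ‖b‖ := mul_le_mul_of_nonneg_left h4 hCG.le
      linarith) (fun b => c0_tendsto _)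
    refine h1.congr fun n => ?_
    rw [hT, seqT_un, hF]

end Pool.Agent.Helper20.FS
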