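import Pool.Agent.Helper20.FR.C1
import Pool.Agent.Helper20.FJ.N2

/-!
# Statements of the modules of project SL (strict inverse limits of Banach algebras)
-/

open Topology Filter

namespace Pool.Agent.Helper20.FS

open Pool.Agent.Helper20.FA Pool.Agent.Helper20.FR

/-- `A` is complete with respect to the seminorm `r`. -/
def StrictSem {A : Type} [CommRing A] [Algebra ℂ A] (r : Seminorm ℂ A) : Prop :=
  ∀ α : ℕ → A, (∀ ε > 0, ∃ N, ∀ k ≥ N, r (α k - α N) ≤ ε) →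
    ∃ a : A, ∀ ε > 0, ∃ N, ∀ k ≥ N, r (α k - a) ≤ ε

/-- Continuous submultiplicative seminorms. -/
def Good {A : Type} [CommRing A] [Algebra ℂ A] [TopologicalSpace A] (r : Seminorm ℂ A) : Prop :=
  Continuous r ∧ ∀ a b, r (a * b) ≤ r a * r b

/-- `a` is bounded: multiplication by `a` maps a neighbourhood of zero to a bounded set. -/
def Bdd {A : Type} [CommRing A] [Algebra ℂ A] [TopologicalSpace A] (a : A) : Prop :=
  ∃ q : Seminorm ℂ A, Continuous q ∧ ∀ r : Seminorm ℂ A, Continuous r →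
    ∃ C : ℝ, ∀ b, r (a * b) ≤ C * q b

/-- SA. Variant of StAS of project R20 (models: Pool/Agent/Helper51/R20/M_AS.lean and
Pool/Agent/Helper41/R20/M_AS.lean; StUL, StDI of FR/St as hypotheses). Proof: `G`, the limit of
the `F n` (StUL), is weak star sequentially continuous at zero (as in StAS), so StDI gives `α k`
with `‖G l - l.at (α k)‖ ≤ (1/2)^k ‖l‖`; `α` is `r`-Cauchy (Hahn-Banach), let `a` be the limit
(StrictSem); then `G l = l.at a` for all `l`, hence `χ a = 1` (use the functional `l` with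
`l.at = χ`, it exists since `‖χ a‖ ≤ r a`) and `l.at (a * c) = (SA.B .. c l).at a =
G (SA.B .. c l)` has norm at most `C q c ‖l‖`, so `r (a * c) ≤ C q c` (Hahn-Banach). -/
def StSA : Prop := ∀ (A : Type) [CommRing A] [Algebra ℂ A] (r q : Seminorm ℂ A)
  (hm : ∀ a b, r (a * b) ≤ r a * r b), StrictSem r → ∀ (x : ℕ → A),
  (∀ z, ∀ ε > 0, ∃ k, r (z - x k) < ε) → ∀ (χ : A →ₗ[ℂ] ℂ), (∀ a, ‖χ a‖ ≤ r a) →
  ∀ (F : ℕ → DA r →ₗ[ℂ] ℂ) (C : ℝ), 0 ≤ C → (∀ n l, ‖F n l‖ ≤ C * ‖l‖) →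
  (∀ n (l : DA r), (∀ a, l.at a = χ a) → F n l = 1) →
  (∀ n c (l : DA r), ‖F n (SA.B r hm (SA.of r c) l)‖ ≤ C * q c * ‖l‖) →
  (∀ l : ℕ → DA r, (∀ n, ‖l n‖ ≤ 1) → (∀ a, Tendsto (fun n => (l n).at a) atTop (𝓝 0)) →
    Tendsto (fun n => F n (l n)) atTop (𝓝 0)) →
  ∃ α : A, χ α = 1 ∧ ∀ b, r (α * b) ≤ C * q b

/-- GE (Gelfand theory). Proof: `A` with `p` is a seminormed commutative ring, let `B` be its
completion (a commutative Banach algebra with unit) and `J` the closure of the image of `I`, an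
ideal with `1/2 ≤ ‖1 - y‖` for `y ∈ J`, so proper. Take a maximal ideal above `J` and its character
(`Ideal.toCharacterSpace`), and restrict it to `A`. `‖χ a‖ ≤ p a`: `‖χ a‖ ^ n ≤ C p (a ^ n) ≤
C (p a) ^ n` for `n ≥ 1`. -/
def StGE : Prop := ∀ (A : Type) [CommRing A] [Algebra ℂ A] (p : Seminorm ℂ A),
  (∀ a b, p (a * b) ≤ p a * p b) → ∀ I : Ideal A, (∀ x ∈ I, 1 / 2 ≤ p (1 - x)) →
  ∃ χ : A →ₐ[ℂ] ℂ, (∀ a, ‖χ a‖ ≤ p a) ∧ ∀ x ∈ I, χ x = 0

/-- ML (Mittag-Leffler). Proof. (i) From `x` as in the hypothesis, `y = 1 - (1 - x) ^ n` has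
`p (1 - y) ≤ (1/2) ^ n` and `r (y b) ≤ C' q b` (`y` is a multiple of `x`), so `p (1 - x) < 1/2` can
be replaced by `p (1 - x) ≤ ε` for every `ε > 0`. (ii) Let `π k` be continuous seminorms such that
each continuous seminorm is at most some `π k` (metrizability). Given the good `p 0`, put
`q 0 = q (p 0)`; `p (k+1)` good, above `p k` and `π (k+1)`, `q (k+1) = q (p (k+1))`, `R (k+1)` good,
above `q (k+1)`, `p (k+1)`, `R k` (`R 0 = p 0`). Choose `z 1` with `R 1 (z 1 b) ≤ D 1 q 0 b`,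
`p 0 (1 - z 1) ≤ 1/4`, and `z (k+1) = y (k+1) z k` where `R (k+1) (y (k+1) b) ≤ C q k b` and
`p k (1 - y (k+1)) ≤ ε k`, `ε k = (1/2)^(k+3) / (1 + D k + p k (z k))`. Then
`R (k+1) (z (k+1) b) ≤ C q k (z k b) ≤ C R k (z k b) ≤ C D k q 0 b = D (k+1) q 0 b`,
`p k ((z (k+1) - z k) b) ≤ ε k p k (z k b) ≤ (1/2)^(k+3) q 0 b` and
`p k (z (k+1) - z k) ≤ (1/2)^(k+3)`. (iii) `z` is Cauchy, its limit `a` has
`p 0 (1 - a) ≤ 1/4 + 1/8 + 1/16 + ... < 1/2` (sum over `k ≥ 1`) and `p j (a b) ≤ (D j + 1) q 0 b`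
for all `j`. -/
def StML : Prop := ∀ (A : Type) [CommRing A] [Algebra ℂ A] [TopologicalSpace A] [IsFrechet A]
  [ContinuousMul A],
  (∀ p : Seminorm ℂ A, Continuous p → ∃ r, Good r ∧ ∀ x, p x ≤ r x) →
  (∀ p : Seminorm ℂ A, Good p → ∃ q : Seminorm ℂ A, Continuous q ∧ ∀ r : Seminorm ℂ A, Good r →
    ∃ x, p (1 - x) < 1 / 2 ∧ ∃ C : ℝ, ∀ b, r (x * b) ≤ C * q b) →
  ∀ p : Seminorm ℂ A, Good p → ∃ a : A, Bdd a ∧ p (1 - a) < 1 / 2

/-- EX. Proof: `s n = ∑ i < n, (1 - a) ^ i` is `p`-Cauchy, let `y` be a limit;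
`s n * a = 1 - (1 - a) ^ n`, so `p (1 - y a) ≤ p ((1 - a) ^ n) + p (s n - y) p a → 0`. -/
def StEX : Prop := ∀ (A : Type) [CommRing A] [Algebra ℂ A] (p : Seminorm ℂ A),
  (∀ a b, p (a * b) ≤ p a * p b) → StrictSem p → ∀ a : A, p (1 - a) < 1 / 2 →
  ∃ y : A, p (1 - y * a) = 0

/-- LU. Proof. Choose `a n` with `Bdd (a n)` and seminorm `q n`, and `p (1 - a (n+1)) = 0` for the
seminorm `p = q n + (a seminorm for V n)`, `V` an antitone basis of neighbourhoods of zero, such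
that `(1 - a (n+1)) b ∈ V n` for all `b` (if `s < 1` implies membership in `V n` and
`s (x y) ≤ α x β y`, `bil_bound` in FC/E2, use `α`). Then `r (a n (1 - a (n+1))) ≤
C q n (1 - a (n+1)) = 0` for all `r`, so `a (n+1) a n = a n`. Put `a' n = (1, a n - 1)` in
`ℂ × A`: `(1, x - 1)(1, y - 1) = (1, x y - 1)`, `((1,0) - a' n)(s, b) = (0, (1 - a n)(s 1 + b))`,
and `a' n (s, b) = (s, a n (s 1 + b) - s 1)`; the ideal `a' n A_+` is normable because
`r (a n b) = r (a (n+1) a n b) ≤ C q (n+1) (a n b)` (`normable_of_bound` in FG/Nec). -/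
def StLU : Prop := ∀ (A : Type) [CommRing A] [Algebra ℂ A] [TopologicalSpace A] [IsFrechet A]
  [ContinuousMul A],
  (∀ p : Seminorm ℂ A, Continuous p → ∃ a : A, Bdd a ∧ p (1 - a) = 0) →
  ∃ a' : ℕ → ℂ × A, LUnit a'

/-- UQ (StGE as hypothesis). Proof: fix a good `p`. Claim: there is a continuous `q` such that for
each good strict `r` above `p` and each character `χ` bounded by `p` there is `α` with `χ α = 1` and
`r (α b) ≤ C q b`. Otherwise take continuous seminorms `π i` such that each continuous seminorm is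
at most some `π i`, and for each `i` a pair `(r i, χ i)` that has no such `α` for `q = π i`; the
second hypothesis for the sequence `χ` gives `q ≤ π i` for some `i`, a contradiction. Now for a good
`r` take a good strict `r'` above `r` and `p`; `I = {x | ∃ C, ∀ b, r' (x b) ≤ C q b}` is an ideal;
if `1/2 ≤ p (1 - x)` for all `x ∈ I`, StGE gives a character `χ` bounded by `p` that vanishes on
`I`, but `α ∈ I` and `χ α = 1`. (If `p ≤ 0`, take `x = 0`, or note StGE still applies.) -/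
def StUQ : Prop := ∀ (A : Type) [CommRing A] [Algebra ℂ A] [TopologicalSpace A] [IsFrechet A]
  [ContinuousMul A],
  (∀ p : Seminorm ℂ A, Continuous p → ∃ r, Good r ∧ StrictSem r ∧ ∀ x, p x ≤ r x) →
  (∀ (χ : ℕ → (A →ₐ[ℂ] ℂ)) (p : Seminorm ℂ A), Continuous p → (∀ j a, ‖χ j a‖ ≤ p a) →
    ∃ q : Seminorm ℂ A, Continuous q ∧ ∀ r : Seminorm ℂ A, Good r → StrictSem r →
      (∀ x, p x ≤ r x) → ∀ j, ∃ α, χ j α = 1 ∧ ∃ C : ℝ, ∀ b, r (α * b) ≤ C * q b) →
  ∀ p : Seminorm ℂ A, Good p → ∃ q : Seminorm ℂ A, Continuous q ∧ ∀ r : Seminorm ℂ A, Good r →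
    ∃ x, p (1 - x) < 1 / 2 ∧ ∃ C : ℝ, ∀ b, r (x * b) ≤ C * q b

end Pool.Agent.Helper20.FS
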